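import Pool.Agent.Helper67.NO.St2

/-! # Project NO (MP_26be5b_ag), module BF1: the algebraic properties of the Levi form -/

set_option autoImplicit false

namespace Pool.Agent.Helper1.NO

open Pool.Agent.Helper67.NO
open Matrix
open scoped Matrix.Norms.Frobenius ContDiff Topology ComplexOrder

section

variable {ι κ : Type} [Fintype ι] [DecidableEq ι] [Fintype κ] [DecidableEq κ]

theorem BF1_low_sub {lev : κ → ℕ} {a b : Matrix (ι ⊕ κ) (ι ⊕ κ) ℂ} (ha : Low lev a)
    (hb : Low lev b) : Low lev (a - b) := by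
  intro p q h
  by_cases h1 : a p q = 0
  · by_cases h2 : b p q = 0
    · exact absurd (by rw [Matrix.sub_apply, h1, h2, sub_zero]) h
    · exact hb p q h2
  · exact ha p q h1

theorem BF1_rai_sub {lev : κ → ℕ} {a b : Matrix (ι ⊕ κ) (ι ⊕ κ) ℂ} (ha : Rai lev a)
    (hb : Rai lev b) : Rai lev (a - b) := by
  intro p q h
  by_cases h1 : a p q = 0
  · by_cases h2 : b p q = 0
    · exact absurd (by rw [Matrix.sub_apply, h1, h2, sub_zero]) h
    · exact hb p q h2
  · exact ha p q h1

theorem BF1_low_neg {lev : κ → ℕ} {a : Matrix (ι ⊕ κ) (ι ⊕ κ) ℂ} (ha : Low lev a) :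
    Low lev (-a) := by
  intro p q h
  exact ha p q (fun h' => h (by rw [Matrix.neg_apply, h', neg_zero]))

theorem BF1_br_add {n : Type} [Fintype n] (x y a : Matrix n n ℂ) :
    br (x + y) a = br x a + br y a := by
  unfold br
  rw [add_mul, mul_add]
  abel

theorem BF1_br_smul {n : Type} [Fintype n] (c : ℂ) (x a : Matrix n n ℂ) :
    br (c • x) a = c • br x a := by
  unfold br
  rw [smul_mul_assoc, mul_smul_comm, smul_sub]

theorem BF1_ip_add {n : Type} [Fintype n] (a b v w v' w' : Matrix n n ℂ) :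
    ip a b (v + v') (w + w') = ip a b v w + ip a b v' w' := by
  unfold ip
  rw [mul_add, mul_add, trace_add, trace_add]
  ring

theorem BF1_ip_smul {n : Type} [Fintype n] (c : ℂ) (a b v w : Matrix n n ℂ) :
    ip a b (c • v) (c • w) = c * ip a b v w := by
  unfold ip
  rw [mul_smul_comm, mul_smul_comm, trace_smul, trace_smul, smul_eq_mul, smul_eq_mul]
  ring

theorem BF1_br_zero {n : Type} [Fintype n] (x : Matrix n n ℂ) : br x 0 = 0 := by
  unfold br
  rw [mul_zero, zero_mul, sub_zero]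

end

theorem pBF1 (h1 : StBL) (h2 : StLVL) (h3 : StBDA) (h4 : StALG) (h5 : StEXA) : StBF1 := by
  intro ι κ _ _ _ _ lev A H a b θ hCh hSt hmom hor
  have hLow := hCh.1
  have hRai := hCh.2.1
  have hbr := hCh.2.2
  obtain ⟨bl1, bl2, bl3, bl4, bl5, bl6, bl7, bl8⟩ := h1 ι κ lev
  obtain ⟨bd1, bd2, bd3, bd4, bd5, bd6, bd7⟩ := h3 ι κ
  obtain ⟨al1, al2, al3, al4, al5, al6, al7, al8, al9⟩ := h4 (ι ⊕ κ)
  -- additivity
  have hadd : ∀ X Y Z, BB a b θ X (Y + Z) = BB a b θ X Y + BB a b θ X Z := by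
    intro X Y Z
    unfold BB
    rw [hor.add Y Z, ← (bd1 Y Z (θ Y) (θ Z)).2.1, BF1_br_add, BF1_br_add, BF1_ip_add]
  have hsmul : ∀ (c : ℂ) X Y, BB a b θ X (c • Y) = c * BB a b θ X Y := by
    intro c X Y
    unfold BB
    rw [hor.smul c Y, ← bd3 c Y (θ Y), BF1_br_smul, BF1_br_smul, BF1_ip_smul]
  have hsymm : ∀ X Y, BB a b θ Y X = star (BB a b θ X Y) := by
    intro X Y
    exact al8 _ _ _ _
  have hself : ∀ X, BB a b θ X X = ((nsq (br (bd X (θ X)) a) (br (bd X (θ X)) b) : ℝ) : ℂ) := by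
    intro X
    exact al4 _ _
  have hnonneg : ∀ X, 0 ≤ (BB a b θ X X).re := by
    intro X
    rw [hself, Complex.ofReal_re]
    unfold nsq
    positivity
  -- the complex symplectic form
  have hL : ∀ X Y : Matrix ι ι ℂ, ∀ ζ η : Matrix κ κ ℂ,
      trace (br (bd X ζ) a * br (bd Y η) b) - trace (br (bd X ζ) b * br (bd Y η) a)
        = trace (A * br X Y) := by
    intro X Y ζ η
    rw [al1, hbr, (bd1 X Y ζ η).2.2.2, (bd1 _ _ _ _).1, (bd2 _ _).2.2.1, mul_zero, trace_zero,
      add_zero, trace_mul_comm]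
  have hlow : ∀ (X : Matrix ι ι ℂ) (η : Matrix κ κ ℂ), Lvl lev η → Low lev (br (bd X η) a) :=
    fun X η hη => BF1_low_sub (bl4 a hLow X η hη).1 (bl4 a hLow X η hη).2
  have hrai : ∀ (X : Matrix ι ι ℂ) (η : Matrix κ κ ℂ), Lvl lev η → Rai lev (br (bd X η) b) :=
    fun X η hη => BF1_rai_sub (bl5 b hRai X η hη).1 (bl5 b hRai X η hη).2
  have hquat : ∀ X, ∃ X', ∀ Y, BB a b θ X' Y = trace (A * br X Y) ∧
      trace (A * br X' Y) = - BB a b θ X Y := by
    intro X
    obtain ⟨h, hh⟩ := hor.hor X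
    set v := br (bd X (θ X)) a with hv
    set w := br (bd X (θ X)) b with hw
    have hvL : Low lev v := hlow X _ (hor.lvl X)
    have hwR : Rai lev w := hrai X _ (hor.lvl X)
    have hv'L : Low lev (-wᴴ) := BF1_low_neg ((bl6 w).2.mp hwR)
    have hw'R : Rai lev vᴴ := (bl6 v).1.mp hvL
    have hex : br (-wᴴ) b + br a vᴴ = bd hᴴ 0 := by
      have e1 : (br v aᴴ + br w bᴴ)ᴴ = bd hᴴ 0 := by
        rw [hh, (bd2 _ _).1, conjTranspose_zero]
      rw [← e1]
      unfold br
      simp only [conjTranspose_add, conjTranspose_sub, conjTranspose_mul, conjTranspose_conjTranspose,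
        neg_mul, mul_neg]
      abel
    obtain ⟨X', η, hη, e2, e3⟩ := h5 ι κ lev A a b (-wᴴ) vᴴ hCh hSt hv'L hw'R ⟨_, hex⟩
    have hηθ : η = θ X' := by
      apply hor.uniq X' η hη
      rw [e2, e3]
      obtain ⟨⟨h', y', hy', e4⟩, _⟩ := bl8 a b (-wᴴ) vᴴ hLow hRai hv'L hw'R
      refine ⟨h', ?_⟩
      rw [e4]
      have e5 : y' = 0 := by
        rw [← Matrix.trace_conjTranspose_mul_self_eq_zero_iff]
        have e6 : trace ((bd (0 : Matrix ι ι ℂ) y')ᴴ * bd h' y') = trace (y'ᴴ * y') := by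
          rw [(bd2 _ _).1, (bd1 _ _ _ _).1, (bd2 _ _).2.2.1, conjTranspose_zero, zero_mul,
            trace_zero, zero_add]
        rw [← e6, ← e4, ← al2]
        have e7 : ip (br (bd (0 : Matrix ι ι ℂ) y') a) (br (bd (0 : Matrix ι ι ℂ) y') b) (-wᴴ) vᴴ =
            star (trace (v * br (bd (0 : Matrix ι ι ℂ) y') b) -
              trace (w * br (bd (0 : Matrix ι ι ℂ) y') a)) := by
          unfold ip
          rw [star_sub, ← trace_conjTranspose, ← trace_conjTranspose, conjTranspose_mul,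
            conjTranspose_mul, mul_neg, trace_neg]
          ring
        rw [e7, hv, hw, hL, BF1_br_zero, mul_zero, trace_zero, star_zero]
      rw [e5]
    refine ⟨X', fun Y => ⟨?_, ?_⟩⟩
    · unfold BB
      rw [← hηθ, e2, e3, ← hL X Y (θ X) (θ Y), ← hv, ← hw]
      unfold ip
      rw [conjTranspose_neg, conjTranspose_conjTranspose, conjTranspose_conjTranspose, neg_mul,
        trace_neg]
      ring
    · rw [← hL X' Y η (θ Y), e2, e3]
      unfold BB ip
      rw [← hv, ← hw, neg_mul, trace_neg]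
      ring
  have hz : ∀ X, BB a b θ X X = 0 → br (bd X (θ X)) a = 0 ∧ br (bd X (θ X)) b = 0 := by
    intro X hX
    rw [hself] at hX
    exact al9 _ _ (by exact_mod_cast hX)
  have hz2 : ∀ X, BB a b θ X X = 0 → ∀ Y, trace (A * br X Y) = 0 := by
    intro X hX Y
    obtain ⟨e1, e2⟩ := hz X hX
    rw [← hL X Y (θ X) (θ Y), e1, e2, zero_mul, zero_mul, trace_zero, sub_zero]
  have hker : ∀ X, BB a b θ X X = 0 ↔ br X A = 0 := by
    intro X
    constructor
    · intro hX
      have e1 := hz2 X hX (br X A)ᴴ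
      rw [← Matrix.trace_conjTranspose_mul_self_eq_zero_iff]
      have e2 : trace (A * br X (br X A)ᴴ) = - trace ((br X A)ᴴ * br X A) := by
        have e3 : ∀ Y : Matrix ι ι ℂ, trace (A * br X Y) = - trace (Y * br X A) := by
          intro Y
          unfold br
          rw [mul_sub, mul_sub, trace_sub, trace_sub, ← mul_assoc, ← mul_assoc, ← mul_assoc,
            ← mul_assoc]
          rw [trace_mul_comm (A * X) Y, trace_mul_cycle A Y X, ← mul_assoc, trace_mul_cycle X A Y]
          ring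
        exact e3 _
      rw [e2] at e1
      exact neg_eq_zero.mp e1
    · intro hX
      obtain ⟨X', hX'⟩ := hquat X
      have e0 : ∀ Y : Matrix ι ι ℂ, trace (A * br X Y) = 0 := by
        intro Y
        have e3 : trace (A * br X Y) = - trace (Y * br X A) := by
          unfold br
          rw [mul_sub, mul_sub, trace_sub, trace_sub, ← mul_assoc, ← mul_assoc, ← mul_assoc,
            ← mul_assoc]
          rw [trace_mul_comm (A * X) Y, trace_mul_cycle A Y X, ← mul_assoc, trace_mul_cycle X A Y]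
          ring
        rw [e3, hX, mul_zero, trace_zero, neg_zero]
      have e1 : BB a b θ X' X' = 0 := by rw [(hX' X').1, e0]
      have e2 := hz2 X' e1 X
      rw [(hX' X).2] at e2
      exact neg_eq_zero.mp e2
  have himag : ∀ X Y, X.IsHermitian → Y.IsHermitian →
      BB a b θ X Y - BB a b θ Y X = trace (br X Y * H) := by
    intro X Y hX hY
    have hh : ∀ X : Matrix ι ι ℂ, X.IsHermitian → (bd X (θ X)).IsHermitian := by
      intro X hX
      show (bd X (θ X))ᴴ = bd X (θ X)
      rw [(bd2 _ _).1, ← hor.star, hX.eq]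
    unfold BB
    rw [al5 _ _ a b (hh X hX) (hh Y hY), hmom, (bd1 _ _ _ _).2.2.2, (bd1 _ _ _ _).1,
      (bd2 _ _).2.2.1, mul_zero, trace_zero, add_zero]
  exact ⟨hadd, hsmul, hsymm, hnonneg, hker, hquat, himag⟩

end Pool.Agent.Helper1.NO
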