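import Pool.Agent.Helper67.NO.St1

/-! # Project NO (MP_26be5b_ag), module CHN: existence of a chain with a norm bound -/

set_option autoImplicit false

namespace Pool.Agent.Helper1.NO

open Pool.Agent.Helper67.NO
open Matrix
open scoped Matrix.Norms.Frobenius ContDiff Topology InnerProductSpace

section

variable {ι κ : Type} [Fintype ι] [DecidableEq ι] [Fintype κ] [DecidableEq κ]

/-- the range of the `i`-th power of the operator of `A` -/
noncomputable def Sr (A : Matrix ι ι ℂ) (i : ℕ) : Submodule ℂ (EuclideanSpace ℂ ι) :=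
  LinearMap.range (toEuclideanLin A ^ i)

theorem Sr_zero (A : Matrix ι ι ℂ) (x : EuclideanSpace ℂ ι) : x ∈ Sr A 0 :=
  ⟨x, by simp⟩

theorem Sr_succ_le (A : Matrix ι ι ℂ) (i : ℕ) (x : EuclideanSpace ℂ ι) (hx : x ∈ Sr A (i + 1)) :
    x ∈ Sr A i := by
  obtain ⟨y, rfl⟩ := hx
  exact ⟨toEuclideanLin A y, by rw [pow_succ]; rfl⟩

theorem Sr_apply (A : Matrix ι ι ℂ) (i : ℕ) (x : EuclideanSpace ℂ ι) (hx : x ∈ Sr A i) :
    toEuclideanLin A x ∈ Sr A (i + 1) := by
  obtain ⟨y, rfl⟩ := hx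
  exact ⟨y, by rw [pow_succ']; rfl⟩

theorem Sr_finrank (A : Matrix ι ι ℂ) (i : ℕ) : Module.finrank ℂ (Sr A i) = (A ^ i).rank := by
  rw [Matrix.rank_eq_finrank_range_toLin (A ^ i) (PiLp.basisFun 2 ℂ ι) (PiLp.basisFun 2 ℂ ι),
    ← Matrix.toLpLin_eq_toLin 2 2, Matrix.toLpLin_pow]
  rfl

/-- the orthonormal bases -/
noncomputable def ob {lev : κ → ℕ} {A : Matrix ι ι ℂ} (h : RT lev A) (i : ℕ) :
    OrthonormalBasis {q : κ // lev q = i} ℂ (Sr A (i + 1)) :=
  (stdOrthonormalBasis ℂ (Sr A (i + 1))).reindex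
    ((Fintype.equivFinOfCardEq (by rw [Sr_finrank, h i])).symm)

/-- the columns -/
noncomputable def cl {lev : κ → ℕ} {A : Matrix ι ι ℂ} (h : RT lev A) :
    ι ⊕ κ → EuclideanSpace ℂ ι
  | .inl p => EuclideanSpace.single p 1
  | .inr q => (ob h (lev q) ⟨q, rfl⟩ : Sr A (lev q + 1))

theorem cl_mem {lev : κ → ℕ} {A : Matrix ι ι ℂ} (h : RT lev A) (p : ι ⊕ κ) :
    cl h p ∈ Sr A (lv lev p) := by
  rcases p with p | q
  · exact Sr_zero A _
  · exact (ob h (lev q) ⟨q, rfl⟩).2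

theorem cl_norm {lev : κ → ℕ} {A : Matrix ι ι ℂ} (h : RT lev A) (p : ι ⊕ κ) :
    ‖cl h p‖ = 1 := by
  rcases p with p | q
  · simp [cl]
  · exact (ob h (lev q)).norm_eq_one ⟨q, rfl⟩

theorem cl_sum {lev : κ → ℕ} {A : Matrix ι ι ℂ} (h : RT lev A) (i : ℕ)
    (x : EuclideanSpace ℂ ι) (hx : x ∈ Sr A i) :
    ∑ r : ι ⊕ κ, (if lv lev r = i then ⟪cl h r, x⟫_ℂ • cl h r else 0) = x := by
  rw [Fintype.sum_sum_type]
  rcases i with _ | i
  · have h2 : ∑ q : κ, (if lv lev (Sum.inr q : ι ⊕ κ) = 0 then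
        ⟪cl h (Sum.inr q), x⟫_ℂ • cl h (Sum.inr q) else 0) = 0 :=
      Finset.sum_eq_zero fun q _ => if_neg (by simp [lv])
    rw [h2, add_zero]
    have h1 := (EuclideanSpace.basisFun ι ℂ).sum_repr' x
    conv_rhs => rw [← h1]
    refine Finset.sum_congr rfl fun p _ => ?_
    rw [if_pos (show lv lev (Sum.inl p : ι ⊕ κ) = 0 from rfl)]
    simp [cl]
  · have h1 : ∑ p : ι, (if lv lev (Sum.inl p : ι ⊕ κ) = i + 1 then
        ⟪cl h (Sum.inl p), x⟫_ℂ • cl h (Sum.inl p) else 0) = 0 :=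
      Finset.sum_eq_zero fun q _ => if_neg (by simp [lv])
    rw [h1, zero_add]
    have h2 := (ob h i).sum_repr' ⟨x, hx⟩
    have h3 := congrArg (fun y : Sr A (i + 1) => (y : EuclideanSpace ℂ ι)) h2
    simp only [AddSubmonoidClass.coe_finsetSum, Submodule.coe_smul, Submodule.coe_inner] at h3
    rw [← Finset.sum_filter]
    have h4 : ∀ q : κ, ∀ hq : lev q = i, cl h (Sum.inr q) =
        ((ob h i ⟨q, hq⟩ : Sr A (i + 1)) : EuclideanSpace ℂ ι) := by
      rintro q rfl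
      rfl
    conv_rhs => rw [← h3]
    refine Finset.sum_bij' (fun q hq => ⟨q, by
        have := (Finset.mem_filter.mp hq).2
        simpa [lv] using this⟩) (fun q _ => q.1) ?_ ?_ ?_ ?_ ?_
    · intro q hq
      simp
    · intro q _
      simp [lv, q.2]
    · intro q hq
      rfl
    · intro q hq
      rfl
    · intro q hq
      have hq' : lev q = i := by
        have := (Finset.mem_filter.mp hq).2
        simpa [lv] using this
      rw [h4 q hq']

theorem frob_vec (A : Matrix ι ι ℂ) (x : EuclideanSpace ℂ ι) :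
    ‖toEuclideanLin A x‖ ≤ ‖A‖ * ‖x‖ := by
  have h := Matrix.frobenius_norm_mul A (replicateCol Unit (WithLp.ofLp x))
  rw [← Matrix.replicateCol_mulVec, Matrix.frobenius_norm_replicateCol,
    Matrix.frobenius_norm_replicateCol] at h
  exact h

theorem nsq_bound {n : Type} [Fintype n] (a : Matrix n n ℂ) (c : ℝ) (hc : ∀ p q, ‖a p q‖ ^ 2 ≤ c) :
    ‖a‖ ^ 2 ≤ (Fintype.card n : ℝ) ^ 2 * c := by
  have h : ‖a‖ ^ 2 = ∑ p, ∑ q, ‖a p q‖ ^ 2 := by
    rw [Matrix.frobenius_norm_def, ← Real.sqrt_eq_rpow, Real.sq_sqrt]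
    · simp
    · positivity
  rw [h]
  calc ∑ p, ∑ q, ‖a p q‖ ^ 2 ≤ ∑ _p : n, ∑ _q : n, c :=
        Finset.sum_le_sum fun p _ => Finset.sum_le_sum fun q _ => hc p q
    _ = (Fintype.card n : ℝ) ^ 2 * c := by
        simp [Finset.sum_const, Finset.card_univ]
        ring

/-- the lowering map -/
noncomputable def ca {lev : κ → ℕ} {A : Matrix ι ι ℂ} (h : RT lev A) :
    Matrix (ι ⊕ κ) (ι ⊕ κ) ℂ :=
  fun p q => if lv lev q = lv lev p + 1 then ⟪cl h p, cl h q⟫_ℂ else 0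

/-- the raising map -/
noncomputable def cb {lev : κ → ℕ} {A : Matrix ι ι ℂ} (h : RT lev A) :
    Matrix (ι ⊕ κ) (ι ⊕ κ) ℂ :=
  fun p q => if lv lev p = lv lev q + 1 then ⟪cl h p, toEuclideanLin A (cl h q)⟫_ℂ else 0

theorem ca_cb {lev : κ → ℕ} {A : Matrix ι ι ℂ} (h : RT lev A) (p q : ι ⊕ κ) :
    (ca h * cb h) p q = if lv lev p = lv lev q then ⟪cl h p, toEuclideanLin A (cl h q)⟫_ℂ else 0 := by
  rw [Matrix.mul_apply]
  by_cases hpq : lv lev p = lv lev q
  · rw [if_pos hpq]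
    have h1 := cl_sum h (lv lev q + 1) (toEuclideanLin A (cl h q)) (Sr_apply A _ _ (cl_mem h q))
    conv_rhs => rw [← h1]
    rw [inner_sum]
    refine Finset.sum_congr rfl fun r _ => ?_
    unfold ca cb
    rw [hpq]
    by_cases hr : lv lev r = lv lev q + 1
    · rw [if_pos hr, if_pos hr, if_pos hr, inner_smul_right]
      ring
    · rw [if_neg hr, if_neg hr, if_neg hr]
      simp
  · rw [if_neg hpq]
    refine Finset.sum_eq_zero fun r _ => ?_
    unfold ca cb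
    by_cases hr : lv lev r = lv lev p + 1
    · rw [if_neg (c := lv lev r = lv lev q + 1) (by omega), mul_zero]
    · rw [if_neg hr, zero_mul]

theorem cb_ca {lev : κ → ℕ} {A : Matrix ι ι ℂ} (h : RT lev A) (p q : ι ⊕ κ) :
    (cb h * ca h) p q = if lv lev p = lv lev q ∧ lv lev q ≠ 0 then
      ⟪cl h p, toEuclideanLin A (cl h q)⟫_ℂ else 0 := by
  rw [Matrix.mul_apply]
  by_cases hpq : lv lev p = lv lev q ∧ lv lev q ≠ 0
  · rw [if_pos hpq]
    obtain ⟨hpq, h0⟩ := hpq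
    obtain ⟨i, hi⟩ := Nat.exists_eq_succ_of_ne_zero h0
    have hm : cl h q ∈ Sr A i := by
      have := cl_mem h q
      rw [hi] at this
      exact Sr_succ_le A i _ this
    have h1 := cl_sum h i (cl h q) hm
    conv_rhs => rw [← h1]
    rw [map_sum, inner_sum]
    refine Finset.sum_congr rfl fun r _ => ?_
    unfold ca cb
    rw [hpq, hi]
    by_cases hr : lv lev r = i
    · rw [if_pos (by omega), if_pos (by omega), if_pos hr, map_smul, inner_smul_right]
      ring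
    · rw [if_neg (by omega), if_neg hr]
      simp
  · rw [if_neg hpq]
    refine Finset.sum_eq_zero fun r _ => ?_
    unfold ca cb
    by_cases hr : lv lev p = lv lev r + 1
    · rw [if_neg (c := lv lev q = lv lev r + 1) (by
        intro h'
        exact hpq ⟨by omega, by omega⟩), mul_zero]
    · rw [if_neg hr, zero_mul]

theorem cc_br {lev : κ → ℕ} {A : Matrix ι ι ℂ} (h : RT lev A) : br (ca h) (cb h) = bd A 0 := by
  ext p q
  unfold br
  rw [Matrix.sub_apply, ca_cb, cb_ca]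
  rcases p with p | p <;> rcases q with q | q
  · have h0 : lv lev (Sum.inl p : ι ⊕ κ) = lv lev (Sum.inl q : ι ⊕ κ) := rfl
    have h1 : ¬ (lv lev (Sum.inl p : ι ⊕ κ) = lv lev (Sum.inl q : ι ⊕ κ) ∧
      lv lev (Sum.inl q : ι ⊕ κ) ≠ 0) := fun h' => h'.2 rfl
    rw [if_pos h0, if_neg h1]
    simp [bd, cl, EuclideanSpace.inner_single_left]
  · simp [bd, lv]
  · simp [bd, lv]
  · simp [bd, lv]

end

theorem pCHN : StCHN := by
  intro ι κ _ _ _ _ lev A h
  refine ⟨ca h, cb h, ⟨?_, ?_, cc_br h⟩, ?_⟩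
  · intro p q hpq
    by_contra hne
    exact hpq (if_neg hne)
  · intro p q hpq
    by_contra hne
    exact hpq (if_neg hne)
  · have ha : ‖ca h‖ ^ 2 ≤ (Fintype.card (ι ⊕ κ) : ℝ) ^ 2 * 1 := by
      apply nsq_bound
      intro p q
      have h1 : ‖ca h p q‖ ≤ 1 := by
        unfold ca
        split_ifs
        · refine (norm_inner_le_norm _ _).trans ?_
          rw [cl_norm, cl_norm, one_mul]
        · simp
      calc ‖ca h p q‖ ^ 2 ≤ 1 ^ 2 := pow_le_pow_left₀ (norm_nonneg _) h1 2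
        _ = 1 := one_pow 2
    have hb : ‖cb h‖ ^ 2 ≤ (Fintype.card (ι ⊕ κ) : ℝ) ^ 2 * ‖A‖ ^ 2 := by
      apply nsq_bound
      intro p q
      have h1 : ‖cb h p q‖ ≤ ‖A‖ := by
        unfold cb
        split_ifs
        · refine (norm_inner_le_norm _ _).trans ?_
          rw [cl_norm, one_mul]
          refine (frob_vec A _).trans ?_
          rw [cl_norm, mul_one]
        · simp
      exact pow_le_pow_left₀ (norm_nonneg _) h1 2
    unfold nsq
    have hN : ((Fintype.card (ι ⊕ κ) : ℕ) : ℝ) = (Fintype.card ι : ℝ) + Fintype.card κ := by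
      rw [Fintype.card_sum]
      push_cast
      ring
    have hN0 : (0 : ℝ) ≤ (Fintype.card ι : ℝ) + Fintype.card κ := by positivity
    rw [hN] at ha hb
    push_cast
    set N : ℝ := (Fintype.card ι : ℝ) + Fintype.card κ with hNd
    have h3 : N ^ 2 ≤ (N + 1) ^ 3 := by nlinarith [sq_nonneg N, pow_nonneg hN0 3]
    have h4 : 0 ≤ 1 + ‖A‖ ^ 2 := by positivity
    calc ‖ca h‖ ^ 2 + ‖cb h‖ ^ 2 ≤ N ^ 2 * 1 + N ^ 2 * ‖A‖ ^ 2 := add_le_add ha hb
      _ = N ^ 2 * (1 + ‖A‖ ^ 2) := by ring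
      _ ≤ (N + 1) ^ 3 * (1 + ‖A‖ ^ 2) := mul_le_mul_of_nonneg_right h3 h4

end Pool.Agent.Helper1.NO
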